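import Mathlib
import Pool.Agent.Q76.LurLevel

/-!
# MP_98e33a_an, Q1: the level set `Θ(𝓛; 1/2)` of the Lüroth map has Hausdorff dimension `1`

`IsLurothMap L` says that `L 0 = 0` and `L x = n (n + 1) x - n` on `[1/(n+1), 1/n)` for all
`n ≥ 1`; the value at the point `1` (and outside `[0, 1]`) is arbitrary.
-/

namespace Pool.Agent.Results.MP_98e33a_an.HalfLevelFullDimension

open Set Filter Topology

/-- `L` is the Lüroth map on `[0, 1)`, with an arbitrary value at `1`. -/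
def IsLurothMap (L : ℝ → ℝ) : Prop :=
  L 0 = 0 ∧ ∀ n : ℕ, 1 ≤ n → ∀ x ∈ Ico (1 / ((n : ℝ) + 1)) (1 / (n : ℝ)), L x = n * (n + 1) * x - n

/-- The asymptotic set of `x`. -/
def AS (L : ℝ → ℝ) (x : ℝ) : Set ℝ :=
  {y | y ∈ Icc (0 : ℝ) 1 ∧ Tendsto (fun n => |L^[n] x - L^[n] y|) atTop (𝓝 0)}

/-- The level set `Θ(L; α)`. -/
def Theta (L : ℝ → ℝ) (α : ℝ) : Set ℝ :=
  {x | x ∈ Icc (0 : ℝ) 1 ∧ dimH (AS L x) = ENNReal.ofReal α}

/-- The Lüroth map with the value `0` at `1`. -/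
noncomputable def luroth (x : ℝ) : ℝ :=
  if x = 0 then 0 else ((⌈1 / x⌉ : ℝ) - 1) * ⌈1 / x⌉ * x - (⌈1 / x⌉ - 1)

/-- The concrete map satisfies the defining property. -/
lemma isLurothMap_luroth : IsLurothMap luroth := by
  refine ⟨by simp [luroth], fun n hn x hx => ?_⟩
  have hn0 : (0 : ℝ) < n := by exact_mod_cast hn
  have hx0 : 0 < x := lt_of_lt_of_le (by positivity) hx.1
  have h1 : ⌈1 / x⌉ = (n : ℤ) + 1 := by
    rw [Int.ceil_eq_iff]
    push_cast
    constructor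
    · rw [add_sub_cancel_right, lt_one_div hn0 hx0]
      exact hx.2
    · rw [one_div_le hx0 (by positivity)]
      exact hx.1
  unfold luroth
  rw [if_neg hx0.ne', h1]
  push_cast
  ring

/-- **The level set at one half has Hausdorff dimension one.** -/
theorem result (L : ℝ → ℝ) (hL : IsLurothMap L) : dimH (Theta L (1 / 2)) = 1 :=
  Q76.Lur.dimH_level (T := L) fun m hm x hx => hL.2 m hm x ⟨hx.1.le, hx.2⟩

end Pool.Agent.Results.MP_98e33a_an.HalfLevelFullDimension
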